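import Pool.Agent.Y209.DC.Scale

/-!
# Shortest dense curves on convex surfaces: a uniform error term

For a convex surface `S` of `ℝ³` of area `A` and diameter `d` one has
`|L_S(ε) - A / (2 ε)| ≤ M d √(d / ε)` for every `ε > 0`, where `M` depends only on (a lower bound
for) the ratio of the inradius to the diameter.
-/

set_option autoImplicit false
open MeasureTheory Set Metric
open scoped ENNReal
open Pool.Agent.H985.Dense

namespace Pool.Agent.Results.MP_523900_gt.UniformRate

/-- (1) For every `κ > 0` there is a constant `M` such that for every convex body `K ⊆ ℝ³` of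
diameter `d` which contains a ball of radius `κ d`, and every `ε > 0`: the area
`A = μHE[2] (frontier K)` and `L_S(ε)`, `S = frontier K`, are finite and
`|L_S(ε) - A / 2 * ε⁻¹| ≤ M * d * √(d / ε)`.
(2) For every convex body `K` there is `M` with `|L_S(ε) - A / 2 * ε⁻¹| ≤ M / √ε` for all
`ε > 0`. -/
theorem result :
    (∀ κ : ℝ, 0 < κ → ∃ M : ℝ,
      ∀ K : Set (EuclideanSpace ℝ (Fin 3)), Convex ℝ K → IsCompact K → (interior K).Nonempty →
        (∃ z : EuclideanSpace ℝ (Fin 3), closedBall z (κ * Metric.diam K) ⊆ K) →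
        μHE[2] (frontier K) ≠ ⊤ ∧ ∀ ε : ℝ, 0 < ε → minLength (frontier K) ε ≠ ⊤ ∧
          |(minLength (frontier K) ε).toReal - (μHE[2] (frontier K)).toReal / 2 * ε⁻¹| ≤
            M * Metric.diam K * √(Metric.diam K / ε)) ∧
    (∀ K : Set (EuclideanSpace ℝ (Fin 3)), Convex ℝ K → IsCompact K → (interior K).Nonempty →
      ∃ M : ℝ, ∀ ε : ℝ, 0 < ε →
        |(minLength (frontier K) ε).toReal - (μHE[2] (frontier K)).toReal / 2 * ε⁻¹| ≤
          M / √ε) :=
  ⟨fun _ hκ => Pool.Agent.Y209.DC.scaled hκ,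
    fun _ h1 h2 h3 => Pool.Agent.Y209.DC.single h1 h2 h3⟩

end Pool.Agent.Results.MP_523900_gt.UniformRate
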